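import Mathlib
import Pool.Agent.Helper40.Lin.Defs
import Pool.Agent.Helper26.Lin.PT
import Pool.Agent.Helper46.Lin.PERM
import Pool.Agent.Helper11.Lin.FURST

open MeasureTheory Filter Topology
open scoped LinearAlgebra.Projectivization Matrix Polynomial

namespace Pool.Agent.Helper44.Lin

open Pool.Agent.Helper40.Lin

theorem sing_pow {k : Type*} [Field k] {m : ℕ} (g : GL (Fin m) k) (F : Submodule k (Fin m → k))
    (h : ∀ v ∈ F, g.1.mulVec v ∈ F) (j : ℕ) : ∀ v ∈ F, (g ^ j : GL (Fin m) k).1.mulVec v ∈ F := by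
  induction j with
  | zero => intro v hv; simpa using hv
  | succ j ih =>
    intro v hv
    rw [pow_succ, Units.val_mul, ← Matrix.mulVec_mulVec]
    exact ih _ (h v hv)

theorem sing_core {k : Type*} [NontriviallyNormedField k] (m : ℕ)
    (hPT5 : ∀ F : Submodule k (Fin m → k), IsClosed (PF F : Set (PS k m)))
    (hPERM : ∀ (t : GL (Fin m) k) (μ : Measure (PS k m)), IsFiniteMeasure μ →
      Measure.map (act t) μ = μ → ∀ (F : Submodule k (Fin m → k)) (S : Set (PS k m)),
      MeasurableSet S → S ⊆ PF F → μ S ≠ 0 → (∀ F' < F, μ (S ∩ PF F') = 0) →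
      ∃ p : ℕ, 1 ≤ p ∧ ∀ v ∈ F, (t ^ p : GL (Fin m) k).1.mulVec v ∈ F)
    (hFURST : ∀ t : GL (Fin m) k, Unb t → ∀ μ : Measure (PS k m), IsFiniteMeasure μ →
      Measure.map (act t) μ = μ → ∀ S : Set (PS k m), MeasurableSet S → μ S ≠ 0 →
      (∀ F : Submodule k (Fin m → k), F ≠ ⊤ → μ (S ∩ PF F) = 0) → False)
    (t s : GL (Fin m) k) (hirr : ∀ q : ℕ, 1 ≤ q → Irr (t ^ q) (s ^ q)) (ht : Unb t)
    (ν ρ : Measure (PS k m)) [IsFiniteMeasure ν] [IsFiniteMeasure ρ]
    (hν : Measure.map (act t) ν = ν) (hρ : Measure.map (act s) ρ = ρ) : ν ⟂ₘ ρ := by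
  by_contra hns
  have hf : Measurable (ρ.rnDeriv ν) := Measure.measurable_rnDeriv ρ ν
  obtain ⟨G, hG, hG1, hG2⟩ := Measure.mutuallySingular_singularPart ρ ν
  have hdec : ρ = ρ.singularPart ν + ν.withDensity (ρ.rnDeriv ν) :=
    Measure.haveLebesgueDecomposition_add ρ ν
  obtain ⟨S1, hS1⟩ : ∃ S1 : Set (PS k m), S1 = G ∩ {x | ρ.rnDeriv ν x ≠ 0} := ⟨_, rfl⟩
  have hS1m : MeasurableSet S1 := by
    rw [hS1]
    exact hG.inter (hf (measurableSet_singleton 0).compl)
  have key : ∀ B : Set (PS k m), B ⊆ S1 → (ρ B = 0 ↔ ν B = 0) := by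
    intro B hB
    have h1 : ρ B = ρ.singularPart ν B + ν.withDensity (ρ.rnDeriv ν) B := by
      conv_lhs => rw [hdec]
      rfl
    have h2 : ρ.singularPart ν B = 0 :=
      measure_mono_null (fun x hx => by
        have := hB hx
        rw [hS1] at this
        exact this.1) hG1
    have h3 : {x | ρ.rnDeriv ν x ≠ 0} ∩ B = B := by
      apply Set.inter_eq_right.2
      intro x hx
      have := hB hx
      rw [hS1] at this
      exact this.2
    rw [h1, h2, zero_add, withDensity_apply_eq_zero hf, h3]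
  have hS1pos : ν S1 ≠ 0 := by
    intro h0
    apply hns
    have h1 : ν {x | ρ.rnDeriv ν x ≠ 0} = 0 := by
      refine measure_mono_null (t := S1 ∪ Gᶜ) ?_ (measure_union_null h0 hG2)
      intro x hx
      by_cases hxG : x ∈ G
      · left
        rw [hS1]
        exact ⟨hxG, hx⟩
      · exact Or.inr hxG
    have h2 : ν.withDensity (ρ.rnDeriv ν) = 0 := by
      rw [← Measure.measure_univ_eq_zero, withDensity_apply_eq_zero hf]
      exact measure_mono_null Set.inter_subset_left h1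
    have h3 : ρ = ρ.singularPart ν := by
      conv_lhs => rw [hdec, h2, add_zero]
    rw [h3]
    exact (Measure.mutuallySingular_singularPart ρ ν).symm
  obtain ⟨F, hF, hmin⟩ := (wellFounded_lt (α := Submodule k (Fin m → k))).has_min
    {F | ν (S1 ∩ PF F) ≠ 0} ⟨⊤, by
      have : (PF ⊤ : Set (PS k m)) = Set.univ := by
        ext x
        simp [PF]
      change ν (S1 ∩ PF ⊤) ≠ 0
      rw [this, Set.inter_univ]
      exact hS1pos⟩
  change ν (S1 ∩ PF F) ≠ 0 at hF
  have hSm : MeasurableSet (S1 ∩ PF F) := hS1m.inter (hPT5 F).measurableSet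
  have hnull : ∀ F' < F, ν ((S1 ∩ PF F) ∩ PF F') = 0 := by
    intro F' hF'
    by_contra h
    refine hmin F' ?_ hF'
    change ν (S1 ∩ PF F') ≠ 0
    intro h0
    have hsub : (S1 ∩ PF F) ∩ PF F' ⊆ S1 ∩ PF F' := fun x hx => ⟨hx.1.1, hx.2⟩
    exact h (measure_mono_null hsub h0)
  obtain ⟨p, hp, hpF⟩ := hPERM t ν inferInstance hν F (S1 ∩ PF F) hSm Set.inter_subset_right hF hnull
  obtain ⟨p', hp', hpF'⟩ := hPERM s ρ inferInstance hρ F (S1 ∩ PF F) hSm Set.inter_subset_right
    (fun h => hF ((key _ Set.inter_subset_left).1 h))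
    (fun F' hF' => (key _ (fun x hx => hx.1.1)).2 (hnull F' hF'))
  have hq := hirr (p * p') (Nat.mul_pos hp hp') F
    (by rw [pow_mul]; exact sing_pow _ F hpF p')
    (by rw [mul_comm, pow_mul]; exact sing_pow _ F hpF' p)
  rcases hq with h0 | h0
  · apply hF
    have : (PF F : Set (PS k m)) = ∅ := by
      rw [h0]
      ext x
      simp only [PF, Set.mem_ofPred_eq, Set.mem_empty_iff_false, iff_false, le_bot_iff]
      intro h
      have h1 := Projectivization.finrank_submodule (K := k) (V := Fin m → k) x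
      rw [h, finrank_bot] at h1
      exact zero_ne_one h1
    rw [this, Set.inter_empty, measure_empty]
  · refine hFURST t ht ν inferInstance hν (S1 ∩ PF F) hSm hF (fun F' hF' => ?_)
    exact hnull F' (by rw [h0]; exact lt_top_iff_ne_top.2 hF')

theorem SING {k : Type*} [NontriviallyNormedField k] [ProperSpace k] (m : ℕ)
    (t s : GL (Fin m) k) (hirr : ∀ q : ℕ, 1 ≤ q → Irr (t ^ q) (s ^ q)) (ht : Unb t)
    (ν ρ : Measure (PS k m)) [IsFiniteMeasure ν] [IsFiniteMeasure ρ]
    (hν : Measure.map (act t) ν = ν) (hρ : Measure.map (act s) ρ = ρ) : ν ⟂ₘ ρ :=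
  sing_core m (Pool.Agent.Helper26.Lin.PT5 m)
    (fun t μ _ hμ F S hS hSF hpos hnull =>
      Pool.Agent.Helper46.Lin.PERM m t μ hμ F S hS hSF hpos hnull)
    (fun t ht μ _ hμ S hS hpos hnull =>
      Pool.Agent.Helper11.Lin.FURST m t ht μ hμ S hS hpos hnull)
    t s hirr ht ν ρ hν hρ

end Pool.Agent.Helper44.Lin
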